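import Pool.Agent.W23.PP.Wt6

/-!
Almost primes `x + a`, `x < x + a < x + √x`, for `a` in an arbitrary dense set of integers, with the
sharp number of exceptional `x`; more generally `|x| ≤ X^g`, `1 ≤ g ≤ 2`, `a ≤ X`.
-/

set_option autoImplicit false

namespace Pool.Agent.Results.MP_b8a134_nt.DenseSetsInInterval

/-- `|x + a| = m s`, where `1 ≤ m ≤ (log X)^t` and `s > 1` is a product of at most `r` primes, each at
least `X^(1/8)` -/
def Rep (X t r : ℕ) (x : ℤ) (a : ℕ) : Prop :=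
  ∃ m s : ℕ, (x + a).natAbs = m * s ∧ 1 ≤ m ∧ (m : ℝ) ≤ Real.log X ^ t ∧ 1 < s ∧
    s.primeFactorsList.length ≤ r ∧ ∀ q : ℕ, q.Prime → q ∣ s → (X : ℝ) ^ (1 / 8 : ℝ) ≤ q

/-- the `a ∈ A` with `x < x + a < x + √x` such that `x + a = m s`, `1 ≤ m ≤ (log X)^t`, `s > 1` a
product of at most five primes, each at least `X^(1/8)` -/
def interval (A : Finset ℕ) (X t x : ℕ) : Set ℕ :=
  {a : ℕ | a ∈ A ∧ x < x + a ∧ ((x + a : ℕ) : ℝ) < x + Real.sqrt x ∧ Rep X t 5 x a}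

/-- `log X / log log X` -/
noncomputable def q (X : ℕ) : ℝ := Real.log X / Real.log (Real.log X)

theorem rep_ph {x : ℤ} {a m s : ℕ} :
    (-x - (a : ℤ)).natAbs = m * s ↔ (x + a).natAbs = m * s := by
  rw [show -x - (a : ℤ) = -(x + a) by ring, Int.natAbs_neg]

theorem general (g : ℝ) (r : ℕ) (hg1 : 1 ≤ g) (hg2 : g ≤ 2) (hgr : g < 9 / 20 * ((r : ℝ) - 1 / 29))
    (δ : ℝ) (hδ : 0 < δ) :
    ∃ (c C : ℝ) (t X₀ : ℕ), 0 < c ∧ ∀ X : ℕ, X₀ ≤ X → ∀ A : Finset ℕ,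
      (∀ a ∈ A, 1 ≤ a ∧ a ≤ X) → δ * X ≤ A.card →
      ({x : ℤ | |(x : ℝ)| ≤ (X : ℝ) ^ g ∧
          (({a : ℕ | a ∈ A ∧ Rep X t r x a}.ncard : ℕ) : ℝ) < c / q X * A.card}.ncard : ℝ) ≤
        C * q X := by
  classical
  obtain ⟨c, C, t, X₁, hc, hC, H⟩ := Pool.Agent.W23.PP.intW g r hg1 hg2 hgr δ hδ
  refine ⟨c, C, t, X₁, hc, fun X hX₁ A hA hAc => ?_⟩
  set S : Set ℤ := {x : ℤ | |(x : ℝ)| ≤ (X : ℝ) ^ g ∧
    (({a : ℕ | a ∈ A ∧ Rep X t r x a}.ncard : ℕ) : ℝ) < c / q X * A.card} with hS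
  have hfin : S.Finite := by
    refine (Set.finite_Icc (-⌈(X : ℝ) ^ g⌉) ⌈(X : ℝ) ^ g⌉).subset fun N hN => ?_
    obtain ⟨h4, h5⟩ := abs_le.1 hN.1
    have h6 := Int.le_ceil ((X : ℝ) ^ g)
    constructor
    · have : ((-⌈(X : ℝ) ^ g⌉ : ℤ) : ℝ) ≤ N := by
        push_cast
        linarith
      exact_mod_cast this
    · have : (N : ℝ) ≤ (⌈(X : ℝ) ^ g⌉ : ℝ) := by linarith
      exact_mod_cast this
  rw [Set.ncard_eq_toFinset_card S hfin]
  have hinj : Function.Injective (fun x : ℤ => -x) := neg_injective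
  rw [← Finset.card_image_of_injective hfin.toFinset hinj]
  refine H X hX₁ A hA hAc _ (fun h hh => ?_) (fun h hh => ?_)
  · obtain ⟨x, hx, rfl⟩ := Finset.mem_image.1 hh
    rw [Set.Finite.mem_toFinset] at hx
    push_cast
    rw [abs_neg]
    exact hx.1
  · obtain ⟨x, hx, rfl⟩ := Finset.mem_image.1 hh
    rw [Set.Finite.mem_toFinset] at hx
    have h6 := hx.2
    have h7 : c / q X = c * (Real.log (Real.log X) / Real.log X) := by
      unfold q
      rw [div_div_eq_mul_div, mul_div_assoc]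
    rw [h7] at h6
    refine lt_of_le_of_lt ?_ h6
    rw [← Set.ncard_coe_finset]
    refine Nat.cast_le.2 (Set.ncard_le_ncard ?_ (A.finite_toSet.subset fun p hp => hp.1))
    intro p hp
    unfold Pool.Agent.W23.PP.GW at hp
    rw [Finset.mem_coe, Finset.mem_filter] at hp
    obtain ⟨hpA, m, s, e1, e2, e3, e4, e5, e6⟩ := hp
    exact ⟨hpA, m, s, rep_ph.1 e1, e2, e3, e4, e5, fun l hl hls =>
      e6 l (Nat.mem_primeFactors.2 ⟨hl, hls, by omega⟩)⟩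

/-- With `q X = log X / log log X`:
(1) For every `δ > 0` there are `c > 0`, `C`, `t` such that for every large `X` and every set `A` of
positive integers `a < X/2`, `|A| ≥ δ X`, for all but at most `C q X` integers `x` with
`X²/4 ≤ x ≤ X²` at least `c |A| / q X` of the `a ∈ A` are such that `x < x + a < x + √x` and
`x + a = m s`, where `m ≤ (log X)^t` and `s > 1` is a product of at most five primes, each at least
`X^(1/8)`.
(2) The same, for every set `A` of positive integers `a ≤ X`, for the integers `x` with `|x| ≤ X^g`,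
where `1 ≤ g ≤ 2` and `s` is a product of at most `r` primes, provided that `g < (9/20) (r - 1/29)`.
(3) For all integers `|x| ≤ X²` the number of all `a ≤ X` with such a representation is at most
`C X / q X`, for every `t`, however many prime factors of `s` are allowed.
(4) The number of exceptions cannot be reduced: for every `t` and `η > 0` there is `c > 0` such that
for every large `X` and every set `H` of at most `c q X` integers `|x| ≤ X²` there is a set `A` of at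
least `(1 - η) X` positive integers `a ≤ X` such that for no `x ∈ H` and no `a ∈ A` the number `x + a`
has such a representation, however many prime factors of `s` are allowed. -/
theorem result :
    (∀ δ : ℝ, 0 < δ → ∃ (c C : ℝ) (t X₀ : ℕ), 0 < c ∧ ∀ X : ℕ, X₀ ≤ X → ∀ A : Finset ℕ,
      (∀ a ∈ A, 1 ≤ a ∧ 2 * a < X) → δ * X ≤ A.card →
      ({x : ℕ | X ^ 2 ≤ 4 * x ∧ x ≤ X ^ 2 ∧
          ((interval A X t x).ncard : ℝ) < c / q X * A.card}.ncard : ℝ) ≤ C * q X) ∧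
    (∀ (g : ℝ) (r : ℕ), 1 ≤ g → g ≤ 2 → g < 9 / 20 * ((r : ℝ) - 1 / 29) → ∀ δ : ℝ, 0 < δ →
      ∃ (c C : ℝ) (t X₀ : ℕ), 0 < c ∧ ∀ X : ℕ, X₀ ≤ X → ∀ A : Finset ℕ,
      (∀ a ∈ A, 1 ≤ a ∧ a ≤ X) → δ * X ≤ A.card →
      ({x : ℤ | |(x : ℝ)| ≤ (X : ℝ) ^ g ∧
          (({a : ℕ | a ∈ A ∧ Rep X t r x a}.ncard : ℕ) : ℝ) < c / q X * A.card}.ncard : ℝ) ≤
        C * q X) ∧
    (∀ t : ℕ, ∃ (C : ℝ) (X₀ : ℕ), ∀ X : ℕ, X₀ ≤ X → ∀ x : ℤ, |(x : ℝ)| ≤ (X : ℝ) ^ 2 →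
      ({a : ℕ | 1 ≤ a ∧ a ≤ X ∧ ∃ r : ℕ, Rep X t r x a}.ncard : ℝ) ≤ C * (X / q X)) ∧
    (∀ (t : ℕ) (η : ℝ), 0 < η → ∃ (c : ℝ) (X₀ : ℕ), 0 < c ∧ ∀ X : ℕ, X₀ ≤ X → ∀ H : Finset ℤ,
      (∀ x ∈ H, |(x : ℝ)| ≤ (X : ℝ) ^ 2) → (H.card : ℝ) ≤ c * q X →
      ∃ A : Finset ℕ, (∀ a ∈ A, 1 ≤ a ∧ a ≤ X) ∧ (1 - η) * X ≤ A.card ∧
        ∀ x ∈ H, ∀ a ∈ A, ∀ r : ℕ, ¬ Rep X t r x a) := by
  classical
  have hRS : ∀ (X t r : ℕ) (x : ℤ) (a : ℕ), Rep X t r x a → Pool.Agent.W23.PP.RepS X t (-x) a := by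
    rintro X t r x a ⟨m, s, e1, e2, e3, e4, e5, e6⟩
    exact ⟨m, s, rep_ph.2 e1, e2, e3, e4, fun l hl =>
      e6 l (Nat.prime_of_mem_primeFactors hl) (Nat.dvd_of_mem_primeFactors hl)⟩
  refine ⟨?_, ?_, ?_, ?_⟩
  · intro δ hδ
    obtain ⟨c, C, t, X₁, hc, H⟩ := general 2 5 (by norm_num) le_rfl (by norm_num) δ hδ
    refine ⟨c, C, t, X₁, hc, fun X hX₁ A hA hAc => ?_⟩
    refine le_trans ?_ (H X hX₁ A (fun p hp => ⟨(hA p hp).1, by have := (hA p hp).2; omega⟩) hAc)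
    set S : Set ℤ := {x : ℤ | |(x : ℝ)| ≤ (X : ℝ) ^ (2 : ℝ) ∧
      (({a : ℕ | a ∈ A ∧ Rep X t 5 x a}.ncard : ℕ) : ℝ) < c / q X * A.card} with hS
    have hfin : S.Finite := by
      refine (Set.finite_Icc (-((X : ℤ) ^ 2)) ((X : ℤ) ^ 2)).subset fun N hN => ?_
      have h4 := hN.1
      rw [Real.rpow_two] at h4
      obtain ⟨h5, h6⟩ := abs_le.1 h4
      exact ⟨by exact_mod_cast h5, by exact_mod_cast h6⟩
    refine Nat.cast_le.2 (Set.ncard_le_ncard_of_injOn (fun N : ℕ => (N : ℤ)) ?_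
      (fun a _ b _ hab => by simpa using hab) hfin)
    rintro N ⟨hN1, hN2, hN3⟩
    have hN1' : (X : ℝ) ^ 2 ≤ 4 * N := by exact_mod_cast hN1
    have hN2' : (N : ℝ) ≤ (X : ℝ) ^ 2 := by exact_mod_cast hN2
    have hN0 : (0 : ℝ) ≤ N := Nat.cast_nonneg _
    refine ⟨?_, lt_of_le_of_lt ?_ hN3⟩
    · rw [Real.rpow_two]
      push_cast
      rw [abs_of_nonneg hN0]
      exact hN2'
    · refine Nat.cast_le.2 (Set.ncard_le_ncard ?_ (A.finite_toSet.subset fun p hp => hp.1))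
      rintro p ⟨hpA, hpR⟩
      obtain ⟨hp1, hp2⟩ := hA p hpA
      have hp2' : 2 * (p : ℝ) < X := by exact_mod_cast hp2
      have hsq : (X : ℝ) / 2 ≤ Real.sqrt N := by
        apply Real.le_sqrt_of_sq_le
        nlinarith
      refine ⟨hpA, by omega, ?_, hpR⟩
      push_cast
      linarith
  · intro g r hg1 hg2 hgr δ hδ
    exact general g r hg1 hg2 hgr δ hδ
  · intro t
    obtain ⟨C, X₀, hC, H⟩ := Pool.Agent.W23.PP.intUp t
    refine ⟨C, X₀, fun X hX N hN => ?_⟩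
    have h4 := H X hX (-N) (by
      push_cast
      rw [abs_neg]
      exact hN)
    have h5 : C * (X / q X) = C * (Real.log (Real.log X) / Real.log X) * X := by
      unfold q
      rw [div_div_eq_mul_div]
      ring
    rw [h5]
    refine le_trans ?_ h4
    rw [← Set.ncard_coe_finset]
    refine Nat.cast_le.2 (Set.ncard_le_ncard ?_ (Finset.finite_toSet _))
    rintro p ⟨hp1, hp2, r, hr⟩
    rw [Finset.mem_coe, Finset.mem_filter, Finset.mem_Icc]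
    exact ⟨⟨hp1, hp2⟩, hRS X t r N p hr⟩
  · intro t η hη
    obtain ⟨c, X₀, hc, H⟩ := Pool.Agent.W23.PP.intSh t η hη
    refine ⟨c, X₀, hc, fun X hX K hK hKc => ?_⟩
    obtain ⟨A, hA1, hA2, hA3⟩ := H X hX (K.image (fun x => -x)) (fun h hh => by
      obtain ⟨x, hx, rfl⟩ := Finset.mem_image.1 hh
      push_cast
      rw [abs_neg]
      exact hK x hx) (by
      rw [Finset.card_image_of_injective K neg_injective]
      exact hKc)
    exact ⟨A, hA1, hA2, fun N hN p hp r hr =>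
      hA3 (-N) (Finset.mem_image_of_mem _ hN) p hp (hRS X t r N p hr)⟩

end Pool.Agent.Results.MP_b8a134_nt.DenseSetsInInterval
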